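import Pool.Agent.H9.Gon7

set_option autoImplicit false

namespace Pool.Agent.Results.MP_d208ff_co.Genus

open Pool.Agent.H9.Gon

/-- Q1 is false: a gonality-tight graph whose genus `|E| - |V| + 1` differs from `choose k 2`. -/
theorem result :
    ∃ (V E : Type) (_ : Fintype V) (_ : DecidableEq V) (_ : Fintype E) (s t : E → V),
      IsGraph s t ∧ gonR s t 2 = gonR s t 1 + 1 ∧
      (Fintype.card E : ℤ) - Fintype.card V + 1 ≠ ((gonR s t 1).choose 2 : ℕ) :=
  ⟨Fin 9, Fin 16, inferInstance, inferInstance, inferInstance, T.s, T.t, T.isG,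
    by rw [T.gon1, T.gon2], by rw [T.gon1]; decide⟩

end Pool.Agent.Results.MP_d208ff_co.Genus
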