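import Pool.Agent.H9.Gon7

set_option autoImplicit false

namespace Pool.Agent.Results.MP_d208ff_co.Sequence

open Pool.Agent.H9.Gon

/-- Q2 is false: a gonality-tight graph whose gonality sequence differs from the formula. -/
theorem result :
    ∃ (V E : Type) (_ : Fintype V) (_ : DecidableEq V) (_ : Fintype E) (s t : E → V),
      IsGraph s t ∧ gonR s t 2 = gonR s t 1 + 1 ∧
      ∃ r l h : ℕ, 1 ≤ r ∧ r < (gonR s t 1).choose 2 ∧ 1 ≤ l ∧ l + 2 ≤ gonR s t 1 ∧ h ≤ l ∧
        2 * (r + h) = l * (l + 3) ∧ gonR s t r + h ≠ l * (gonR s t 1 + 1) :=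
  ⟨Fin 9, Fin 16, inferInstance, inferInstance, inferInstance, T.s, T.t, T.isG,
    by rw [T.gon1, T.gon2], 3, 2, 2, by norm_num, by rw [T.gon1]; decide, by norm_num,
    by rw [T.gon1]; norm_num, le_rfl, by norm_num, by have := T.gon3; rw [T.gon1]; omega⟩

end Pool.Agent.Results.MP_d208ff_co.Sequence
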